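import Mathlib

set_option autoImplicit false

namespace Pool.Agent.H.MP_a19cb6_nt

open Finset

/-- bits at `0, q, 2q, …, (c-1)q` -/
noncomputable def pat (q f : ℕ) : ℕ → ℕ :=
  Nat.rec (fun _ => 1) (fun _ ih c => cond (Nat.ble c 1) 1
    (Nat.lor (ih (Nat.div (Nat.succ c) 2))
      (Nat.shiftLeft (ih (Nat.div (Nat.succ c) 2)) (Nat.mul q (Nat.div c 2))))) f

/-- odd sieving numbers `2j+3`, `j < n` -/
noncomputable def qs (n : ℕ) : List ℕ :=
  Nat.rec [] (fun j ih => cond (Nat.ble j 70 || Nat.beq (Nat.gcd (2 * j + 3) (Nat.factorial 143)) 1)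
    ((2 * j + 3) :: ih) ih) n

noncomputable def sv (T a : ℕ) (Q : List ℕ) : ℕ :=
  List.rec 0 (fun q _ ih => Nat.lor ih (Nat.shiftRight (pat q 20 (Nat.add (Nat.div T q) 2))
    (Nat.mod (Nat.add a (Nat.div (Nat.succ q) 2)) q))) Q

noncomputable def pc (W x : ℕ) : ℕ :=
  (Nat.rec 0 (fun j ih => ih + ((x >>> j) &&& pat 16 20 (W / 16 + 1))) 16 : ℕ) % 65535

noncomputable def blk (W m : ℕ) : ℕ → ℕ → ℕ :=
  Nat.rec (fun _ _ => 0) (fun _ ih a G =>
    pc W (G % 2 ^ W) * (10 ^ 15 / (2 * (a + W) - 1) + 10 ^ 15 / (2 * (a + W) + 5)) +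
      ih (a + W) (G >>> W)) m

noncomputable def gd (C : ℕ) : ℕ :=
  ((C >>> 1 &&& C >>> 2) ||| (C ||| C >>> 3)) ^^^ (C ||| C >>> 3)

noncomputable def run (n W m a s : ℕ) : ℕ :=
  Nat.rec 0 (fun j ih => ih + blk W m (a + j * (m * W)) (gd (sv (m * W + 3) (a + j * (m * W)) (qs n)))) s

noncomputable def chk (n W m a s b M : ℕ) : Bool :=
  Nat.ble (n + 1) a && Nat.ble (2 * b + 8) ((2 * n + 3) ^ 2) && Nat.ble (m * W) 1000000 &&
    Nat.beq b (a + s * (m * W)) && Nat.ble M (run n W m a s)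

/-- `p` and `p + h` are consecutive primes -/
def Gap (h p : ℕ) : Prop := p.Prime ∧ (p + h).Prime ∧ ∀ q, p < q → q < p + h → ¬ q.Prime

open Classical in
noncomputable def g (k : ℕ) : ℕ :=
  if Gap 6 (2 * k + 1) then 10 ^ 15 / (2 * k + 1) + 10 ^ 15 / (2 * k + 7) else 0

theorem rec_sum (F : ℕ → ℕ) (n : ℕ) :
    (Nat.rec 0 (fun j ih => ih + F j) n : ℕ) = ∑ j ∈ range n, F j := by
  induction n with
  | zero => rfl
  | succ n ih => rw [sum_range_succ, ← ih]

theorem pat_spec (q f : ℕ) : ∀ c, 1 ≤ c → c ≤ 2 ^ f → ∀ i,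
    (pat q f c).testBit i = true ↔ ∃ k < c, i = q * k := by
  have h1 : ∀ i, Nat.testBit 1 i = true ↔ ∃ k < 1, i = q * k := fun i => by
    simp [Nat.testBit_one_eq_true_iff_self_eq_zero]
  induction f with
  | zero =>
    intro c a b i
    obtain rfl : c = 1 := by omega
    exact h1 i
  | succ f ih =>
    intro c a b i
    have e : pat q (f + 1) c = cond (Nat.ble c 1) 1
      (pat q f ((c + 1) / 2) ||| pat q f ((c + 1) / 2) <<< (q * (c / 2))) := rfl
    rw [e]
    rcases a.eq_or_lt with rfl | a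
    · exact h1 i
    have : Nat.ble c 1 = false := by
      rw [← Bool.not_eq_true, Nat.ble_eq]; omega
    have ih' := ih ((c + 1) / 2) (by omega) (by rw [pow_succ] at b; omega)
    rw [this, cond_false, Nat.testBit_or, Nat.testBit_shiftLeft, Bool.or_eq_true, Bool.and_eq_true,
      ih', ih', decide_eq_true_eq]
    constructor
    · rintro (⟨k, hk, rfl⟩ | ⟨h, k, hk, e⟩)
      · exact ⟨k, by omega, rfl⟩
      · exact ⟨c / 2 + k, by omega, by rw [mul_add]; omega⟩
    · rintro ⟨k, hk, rfl⟩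
      by_cases h : k < (c + 1) / 2
      · exact Or.inl ⟨k, h, rfl⟩
      · obtain ⟨k, rfl⟩ : ∃ l, k = c / 2 + l := ⟨k - c / 2, by omega⟩
        exact Or.inr ⟨by rw [mul_add]; omega, k, by omega, by rw [mul_add]; omega⟩

theorem mem_qs (n q : ℕ) : q ∈ qs n ↔
    ∃ j < n, q = 2 * j + 3 ∧ (j ≤ 70 ∨ Nat.gcd (2 * j + 3) (Nat.factorial 143) = 1) := by
  induction n with
  | zero => simp [qs]
  | succ n ih =>
    have e : qs (n + 1) = cond (Nat.ble n 70 || Nat.beq (Nat.gcd (2 * n + 3) (Nat.factorial 143)) 1)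
      ((2 * n + 3) :: qs n) (qs n) := rfl
    have e2 : (Nat.ble n 70 || Nat.beq (Nat.gcd (2 * n + 3) (Nat.factorial 143)) 1) = true ↔
        (n ≤ 70 ∨ Nat.gcd (2 * n + 3) (Nat.factorial 143) = 1) := by
      rw [Bool.or_eq_true, Nat.ble_eq, Nat.beq_eq]
    rw [e, Nat.exists_lt_succ_right, ← ih, ← e2]
    cases (Nat.ble n 70 || Nat.beq (Nat.gcd (2 * n + 3) (Nat.factorial 143)) 1) <;> simp [or_comm]

theorem sv_spec {T a : ℕ} (hT : T ≤ 1000003) {i : ℕ} (hi : i < T) (Q : List ℕ)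
    (hQ : ∀ q ∈ Q, ∃ j, q = 2 * j + 3) :
    (sv T a Q).testBit i = true ↔ ∃ q ∈ Q, q ∣ 2 * (a + i) + 1 := by
  induction Q with
  | nil => simp [sv]
  | cons q Q ih =>
    have e : sv T a (q :: Q) = sv T a Q ||| pat q 20 (T / q + 2) >>> ((a + (q + 1) / 2) % q) := rfl
    obtain ⟨j, hj⟩ := hQ q (by simp)
    have h3 : T / q ≤ T / 3 := Nat.div_le_div_left (by omega) (by omega)
    rw [e, Nat.testBit_or, Bool.or_eq_true, ih fun r hr => hQ r (by simp [hr]),
      Nat.testBit_shiftRight, pat_spec q 20 _ (le_add_left one_le_two) (by omega), List.exists_mem_cons_iff,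
      or_comm]
    refine or_congr_left ?_
    have h4 := Nat.mod_add_div (a + (q + 1) / 2) q
    have h5 := Nat.mod_lt (a + (q + 1) / 2) (show 0 < q by omega)
    have h6 : (q + 1) / 2 = j + 2 := by omega
    rw [h6] at h4 h5 ⊢
    generalize (a + (j + 2)) % q = r at *
    generalize (a + (j + 2)) / q = t at *
    constructor
    · rintro ⟨k, -, hk⟩
      have : q ∣ 2 * (a + i) + 1 + q := ⟨2 * (k + t), by linarith⟩
      exact (Nat.dvd_add_left dvd_rfl).1 this
    · intro h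
      have h7 : q ∣ 2 * (r + i) + q * (2 * t) := by
        rw [show 2 * (r + i) + q * (2 * t) = 2 * (a + i) + 1 + q by linarith]
        exact Dvd.dvd.add h dvd_rfl
      obtain ⟨k, hk⟩ := Nat.Coprime.dvd_of_dvd_mul_left
        (show q.Coprime 2 by simp [Nat.odd_iff]; omega) ((Nat.dvd_add_left (dvd_mul_right _ _)).1 h7)
      refine ⟨k, ?_, hk⟩
      have h8 := Nat.mod_add_div T q
      have h9 := Nat.mod_lt T (show 0 < q by omega)
      exact lt_of_mul_lt_mul_left (a := q) (by rw [mul_add]; omega) (Nat.zero_le _)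

theorem sv_prime {T a n : ℕ} (hT : T ≤ 1000003) {i : ℕ} (hi : i < T) (h1 : n < a)
    (h2 : 2 * (a + T) < (2 * n + 3) ^ 2) :
    (sv T a (qs n)).testBit i = true ↔ ¬ (2 * (a + i) + 1).Prime := by
  rw [sv_spec hT hi _ fun q hq => let ⟨j, _, h, _⟩ := (mem_qs n q).1 hq; ⟨j, h⟩]
  constructor
  · rintro ⟨q, hq, hd⟩ hp
    obtain ⟨j, hj, rfl, -⟩ := (mem_qs n q).1 hq
    have := hp.eq_one_or_self_of_dvd _ hd
    omega
  · intro hp
    have h3 := Nat.minFac_prime (n := 2 * (a + i) + 1) (by omega)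
    have h4 := Nat.minFac_dvd (2 * (a + i) + 1)
    have h5 := Nat.minFac_sq_le_self (n := 2 * (a + i) + 1) (by omega) hp
    generalize Nat.minFac _ = q at *
    have h6 : q < 2 * n + 3 := lt_of_pow_lt_pow_left₀ 2 (Nat.zero_le _) (by omega)
    have h7 : q % 2 = 1 := h3.eq_two_or_odd.resolve_left (by rintro rfl; omega)
    have h8 := h3.two_le
    refine ⟨q, (mem_qs n q).2 ⟨(q - 3) / 2, by omega, by omega, ?_⟩, h4⟩
    rw [show 2 * ((q - 3) / 2) + 3 = q by omega]
    by_cases h : q ≤ 143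
    · exact Or.inl (by omega)
    · exact Or.inr ((Nat.Prime.coprime_iff_not_dvd h3).2 (by rw [h3.dvd_factorial]; exact h))

theorem gd_gap {L a n : ℕ} (hT : L ≤ 1000000) {i : ℕ} (hi : i < L) (h1 : n < a)
    (h2 : 2 * (a + L) + 8 ≤ (2 * n + 3) ^ 2) (h : (gd (sv (L + 3) a (qs n))).testBit i = true) :
    Gap 6 (2 * (a + i) + 1) := by
  have k := fun (i : ℕ) (hi : i < L + 3) => sv_prime (T := L + 3) (by omega) hi h1 (by omega)
  have k0 := k i (by omega)
  have k1 := k (1 + i) (by omega)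
  have k2 := k (2 + i) (by omega)
  have k3 := k (3 + i) (by omega)
  simp only [gd, Nat.testBit_xor, Nat.testBit_or, Nat.testBit_and, Nat.testBit_shiftRight] at h
  generalize Nat.testBit _ i = b0, Nat.testBit _ (1 + i) = b1, Nat.testBit _ (2 + i) = b2,
    Nat.testBit _ (3 + i) = b3 at *
  obtain ⟨rfl, rfl, rfl, rfl⟩ : b0 = false ∧ b1 = true ∧ b2 = true ∧ b3 = false := by
    clear k0 k1 k2 k3; revert b0 b1 b2 b3; decide
  simp only [Bool.false_eq_true, false_iff, not_not, true_iff] at k0 k1 k2 k3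
  refine ⟨k0, by convert k3 using 1; omega, fun q c b hq => ?_⟩
  have h7 : q % 2 = 1 := hq.eq_two_or_odd.resolve_left (by rintro rfl; omega)
  rcases (by omega : q = 2 * (a + (1 + i)) + 1 ∨ q = 2 * (a + (2 + i)) + 1) with rfl | rfl
  exacts [k1 hq, k2 hq]

theorem modcnt (y : ℕ) (h : ∀ i, y.testBit i = true → 16 ∣ i) (n : ℕ) :
    y % 2 ^ n ≡ ((range n).filter fun i => y.testBit i = true).card [MOD 65535] := by
  induction n with
  | zero => simp [Nat.mod_one]; rfl
  | succ n ih =>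
    rw [Nat.mod_pow_succ, ← Nat.toNat_testBit, range_add_one, filter_insert]
    split_ifs with hb
    · rw [card_insert_of_notMem (by simp), hb]
      obtain ⟨k, rfl⟩ := h n hb
      refine ih.add ?_
      rw [pow_mul]
      simpa using Nat.ModEq.pow k (show 2 ^ 16 ≡ 1 [MOD 65535] by decide)
    · simpa [hb] using ih

theorem pc_le {W x : ℕ} (hW : W ≤ 1000000) (hx : x < 2 ^ W) :
    pc W x ≤ ((range W).filter fun i => x.testBit i = true).card := by
  have hM := pat_spec 16 20 (W / 16 + 1) (by omega) (by omega)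
  unfold pc
  generalize pat 16 20 (W / 16 + 1) = M at *
  rw [rec_sum fun j => (x >>> j) &&& M]
  have e : ∑ j ∈ range 16, ((x >>> j) &&& M) ≡ ∑ j ∈ range 16,
      ((range W).filter fun i => ((x >>> j) &&& M).testBit i = true).card [MOD 65535] := by
    refine Nat.ModEq.sum fun j _ => ?_
    have := modcnt ((x >>> j) &&& M) (fun i hi => by
      rw [Nat.testBit_and, Bool.and_eq_true, hM] at hi
      obtain ⟨-, k, -, rfl⟩ := hi
      exact dvd_mul_right _ _) W
    rwa [Nat.mod_eq_of_lt (Nat.and_le_left.trans_lt ((Nat.shiftRight_le _ _).trans_lt hx))] at this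
  rw [e]
  refine (Nat.mod_le _ _).trans ?_
  rw [← card_sigma]
  refine card_le_card_of_injOn (fun z => z.1 + z.2) (fun z hz => ?_) ?_
  · simp only [coe_sigma, Set.mem_sigma_iff, mem_coe, mem_filter, mem_range, Nat.testBit_and,
      Bool.and_eq_true, Nat.testBit_shiftRight] at hz ⊢
    refine ⟨?_, hz.2.2.1⟩
    by_contra hc
    rw [Nat.testBit_lt_two_pow (hx.trans_le (Nat.pow_le_pow_right two_pos (by omega)))] at hz
    simp at hz
  · rintro ⟨j, i⟩ hz ⟨j', i'⟩ hz' e
    simp only [coe_sigma, Set.mem_sigma_iff, mem_coe, mem_filter, mem_range, Nat.testBit_and,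
      Bool.and_eq_true, hM] at hz hz' e
    obtain ⟨a, -, -, k, -, rfl⟩ := hz
    obtain ⟨a', -, -, k', -, rfl⟩ := hz'
    obtain ⟨rfl, rfl⟩ : j = j' ∧ k = k' := by omega
    rfl

theorem blk_le {W : ℕ} (hW : W ≤ 1000000) (m : ℕ) : ∀ a G : ℕ,
    (∀ i < m * W, G.testBit i = true → Gap 6 (2 * (a + i) + 1)) →
    blk W m a G ≤ ∑ i ∈ range (m * W), g (a + i) := by
  induction m with
  | zero => exact fun _ _ _ => Nat.zero_le _
  | succ m ih =>
    intro a G h
    have e : blk W (m + 1) a G = pc W (G % 2 ^ W) *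
      (10 ^ 15 / (2 * (a + W) - 1) + 10 ^ 15 / (2 * (a + W) + 5)) + blk W m (a + W) (G >>> W) := rfl
    rw [add_mul, one_mul, add_comm (m * W)] at h ⊢
    rw [e, sum_range_add]
    refine add_le_add ?_ ((ih _ _ fun i hi hb => ?_).trans_eq (by simp only [add_assoc]))
    · refine (Nat.mul_le_mul_right _ (pc_le hW (Nat.mod_lt _ (by positivity)))).trans ?_
      refine (card_nsmul_le_sum _ (fun i => g (a + i)) _ fun i hi => ?_).trans
        (sum_le_sum_of_subset (filter_subset _ _))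
      rw [mem_filter, mem_range, Nat.testBit_mod_two_pow, Bool.and_eq_true] at hi
      rw [g, if_pos (h i (by omega) hi.2.2)]
      exact add_le_add (Nat.div_le_div_left (by omega) (by omega))
        (Nat.div_le_div_left (by omega) (by omega))
    · rw [add_assoc]
      exact h _ (by omega) (by rwa [Nat.testBit_shiftRight] at hb)

/-- scaled partial sum -/
@[irreducible] noncomputable def U (b : ℕ) : ℕ := ∑ k ∈ range b, g k

theorem step {n W m a s b M : ℕ} (h : chk n W m a s b M = true) : U a + M ≤ U b := by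
  simp only [chk, Bool.and_eq_true, Nat.ble_eq, Nat.beq_eq] at h
  obtain ⟨⟨⟨⟨h1, h2⟩, h3⟩, rfl⟩, h4⟩ := h
  refine (Nat.add_le_add_left h4 _).trans ?_
  clear h4
  induction s with
  | zero => exact le_of_eq (by simp [run])
  | succ s ih =>
    have e : run n W m a (s + 1) = run n W m a s +
      blk W m (a + s * (m * W)) (gd (sv (m * W + 3) (a + s * (m * W)) (qs n))) := rfl
    rw [add_mul, one_mul, ← add_assoc] at h2 ⊢
    rw [e, U.eq_1 (_ + _), sum_range_add, ← add_assoc, ← U.eq_1]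
    refine add_le_add (ih (by omega)) ?_
    rcases Nat.eq_zero_or_pos m with rfl | hm
    · exact Nat.zero_le _
    exact blk_le ((Nat.le_mul_of_pos_left _ hm).trans h3) _ _ _ fun i hi hb =>
      gd_gap h3 hi (by omega) h2 hb

theorem cat {a b c M N : ℕ} (K : ℕ) (h : U a + M ≤ U b) (h' : U b + N ≤ U c) (e : K = M + N) :
    U a + K ≤ U c := by
  omega

end Pool.Agent.H.MP_a19cb6_nt
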