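import Pool.Agent.H.MP_a19cb6_nt.A

namespace Pool.Agent.H.MP_a19cb6_nt

theorem seg0 : U 10 + 850030729256317 ≤ U 16777216 := by
  have h0 := step (show chk 9 1 200 10 1 210 424110119951927 = true by decide +kernel)
  have h1 := step (show chk 31 1 919 210 2 2048 157654722217889 = true by decide +kernel)
  have h2 := step (show chk 44 2 1024 2048 1 4096 38751070882123 = true by decide +kernel)
  have h3 := step (show chk 63 4 1024 4096 1 8192 32632145475517 = true by decide +kernel)
  have h4 := step (show chk 90 8 1024 8192 1 16384 28906569631862 = true by decide +kernel)
  have h5 := step (show chk 127 16 1024 16384 1 32768 25158519030787 = true by decide +kernel)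
  have h6 := step (show chk 180 32 1024 32768 1 65536 22155321687711 = true by decide +kernel)
  have h7 := step (show chk 255 64 1024 65536 1 131072 20168661231952 = true by decide +kernel)
  have h8 := step (show chk 361 128 1024 131072 1 262144 18385154120130 = true by decide +kernel)
  have h9 := step (show chk 511 256 512 262144 2 524288 16889521304386 = true by decide +kernel)
  have h10 := step (show chk 723 512 256 524288 4 1048576 15232114719330 = true by decide +kernel)
  have h11 := step (show chk 1023 1024 128 1048576 8 2097152 14099531960940 = true by decide +kernel)
  have h12 := step (show chk 1253 2048 64 2097152 8 3145728 7706543956760 = true by decide +kernel)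
  have h13 := step (show chk 1447 2048 64 3145728 8 4194304 5242605810068 = true by decide +kernel)
  have h14 := step (show chk 1618 4096 32 4194304 8 5242880 3904728208335 = true by decide +kernel)
  have h15 := step (show chk 1773 4096 32 5242880 8 6291456 3125572304487 = true by decide +kernel)
  have h16 := step (show chk 1915 4096 32 6291456 8 7340032 2607290973624 = true by decide +kernel)
  have h17 := step (show chk 2047 4096 32 7340032 8 8388608 2227477583100 = true by decide +kernel)
  have h18 := step (show chk 2171 8192 16 8388608 8 9437184 1946916183841 = true by decide +kernel)
  have h19 := step (show chk 2289 8192 16 9437184 8 10485760 1714137086267 = true by decide +kernel)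
  have h20 := step (show chk 2400 8192 16 10485760 8 11534336 1537159697567 = true by decide +kernel)
  have h21 := step (show chk 2507 8192 16 11534336 8 12582912 1376873238895 = true by decide +kernel)
  have h22 := step (show chk 2610 8192 16 12582912 8 13631488 1265886005373 = true by decide +kernel)
  have h23 := step (show chk 2708 8192 16 13631488 8 14680064 1171021996434 = true by decide +kernel)
  have h24 := step (show chk 2803 8192 16 14680064 8 15728640 1065996459753 = true by decide +kernel)
  have h25 := step (show chk 2895 8192 16 15728640 8 16777216 995067537259 = true by decide +kernel)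
  have c1 := cat 581764842169816 h0 h1 (by norm_num)
  have c2 := cat 620515913051939 c1 h2 (by norm_num)
  have c3 := cat 653148058527456 c2 h3 (by norm_num)
  have c4 := cat 682054628159318 c3 h4 (by norm_num)
  have c5 := cat 707213147190105 c4 h5 (by norm_num)
  have c6 := cat 729368468877816 c5 h6 (by norm_num)
  have c7 := cat 749537130109768 c6 h7 (by norm_num)
  have c8 := cat 767922284229898 c7 h8 (by norm_num)
  have c9 := cat 784811805534284 c8 h9 (by norm_num)
  have c10 := cat 800043920253614 c9 h10 (by norm_num)
  have c11 := cat 814143452214554 c10 h11 (by norm_num)
  have c12 := cat 821849996171314 c11 h12 (by norm_num)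
  have c13 := cat 827092601981382 c12 h13 (by norm_num)
  have c14 := cat 830997330189717 c13 h14 (by norm_num)
  have c15 := cat 834122902494204 c14 h15 (by norm_num)
  have c16 := cat 836730193467828 c15 h16 (by norm_num)
  have c17 := cat 838957671050928 c16 h17 (by norm_num)
  have c18 := cat 840904587234769 c17 h18 (by norm_num)
  have c19 := cat 842618724321036 c18 h19 (by norm_num)
  have c20 := cat 844155884018603 c19 h20 (by norm_num)
  have c21 := cat 845532757257498 c20 h21 (by norm_num)
  have c22 := cat 846798643262871 c21 h22 (by norm_num)
  have c23 := cat 847969665259305 c22 h23 (by norm_num)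
  have c24 := cat 849035661719058 c23 h24 (by norm_num)
  have c25 := cat 850030729256317 c24 h25 (by norm_num)
  exact c25

end Pool.Agent.H.MP_a19cb6_nt
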