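import Pool.Agent.H.MP_a19cb6_nt.A

namespace Pool.Agent.H.MP_a19cb6_nt

theorem seg1 : U 16777216 + 9814698595556 ≤ U 32505856 := by
  have h0 := step (show chk 2984 16384 8 16777216 8 17825792 926586384988 = true by decide +kernel)
  have h1 := step (show chk 3071 16384 8 17825792 8 18874368 860953848175 = true by decide +kernel)
  have h2 := step (show chk 3155 16384 8 18874368 8 19922944 822213568192 = true by decide +kernel)
  have h3 := step (show chk 3237 16384 8 19922944 8 20971520 766684593653 = true by decide +kernel)
  have h4 := step (show chk 3317 16384 8 20971520 8 22020096 730015234402 = true by decide +kernel)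
  have h5 := step (show chk 3395 16384 8 22020096 8 23068672 701430689298 = true by decide +kernel)
  have h6 := step (show chk 3472 16384 8 23068672 8 24117248 656946684723 = true by decide +kernel)
  have h7 := step (show chk 3546 16384 8 24117248 8 25165824 628826755000 = true by decide +kernel)
  have h8 := step (show chk 3619 16384 8 25165824 8 26214400 604193450190 = true by decide +kernel)
  have h9 := step (show chk 3691 16384 8 26214400 8 27262976 568285011303 = true by decide +kernel)
  have h10 := step (show chk 3761 16384 8 27262976 8 28311552 548750129984 = true by decide +kernel)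
  have h11 := step (show chk 3830 16384 8 28311552 8 29360128 532146035183 = true by decide +kernel)
  have h12 := step (show chk 3898 16384 8 29360128 8 30408704 509640239250 = true by decide +kernel)
  have h13 := step (show chk 3965 16384 8 30408704 8 31457280 492035735533 = true by decide +kernel)
  have h14 := step (show chk 4030 16384 8 31457280 8 32505856 465990235682 = true by decide +kernel)
  have c1 := cat 1787540233163 h0 h1 (by norm_num)
  have c2 := cat 2609753801355 c1 h2 (by norm_num)
  have c3 := cat 3376438395008 c2 h3 (by norm_num)
  have c4 := cat 4106453629410 c3 h4 (by norm_num)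
  have c5 := cat 4807884318708 c4 h5 (by norm_num)
  have c6 := cat 5464831003431 c5 h6 (by norm_num)
  have c7 := cat 6093657758431 c6 h7 (by norm_num)
  have c8 := cat 6697851208621 c7 h8 (by norm_num)
  have c9 := cat 7266136219924 c8 h9 (by norm_num)
  have c10 := cat 7814886349908 c9 h10 (by norm_num)
  have c11 := cat 8347032385091 c10 h11 (by norm_num)
  have c12 := cat 8856672624341 c11 h12 (by norm_num)
  have c13 := cat 9348708359874 c12 h13 (by norm_num)
  have c14 := cat 9814698595556 c13 h14 (by norm_num)
  exact c14

end Pool.Agent.H.MP_a19cb6_nt
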