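import Pool.Agent.H.MP_a19cb6_nt.A

namespace Pool.Agent.H.MP_a19cb6_nt

theorem seg10 : U 119537664 + 850776404138 ≤ U 127926272 := by
  have h0 := step (show chk 7764 65536 2 119537664 8 120586240 109430118661 = true by decide +kernel)
  have h1 := step (show chk 7798 65536 2 120586240 8 121634816 107698669072 = true by decide +kernel)
  have h2 := step (show chk 7831 65536 2 121634816 8 122683392 108492415575 = true by decide +kernel)
  have h3 := step (show chk 7864 65536 2 122683392 8 123731968 107847053504 = true by decide +kernel)
  have h4 := step (show chk 7898 65536 2 123731968 8 124780544 106463022714 = true by decide +kernel)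
  have h5 := step (show chk 7931 65536 2 124780544 8 125829120 105140276771 = true by decide +kernel)
  have h6 := step (show chk 7964 65536 2 125829120 8 126877696 103190647483 = true by decide +kernel)
  have h7 := step (show chk 7997 65536 2 126877696 8 127926272 102514200358 = true by decide +kernel)
  have c1 := cat 217128787733 h0 h1 (by norm_num)
  have c2 := cat 325621203308 c1 h2 (by norm_num)
  have c3 := cat 433468256812 c2 h3 (by norm_num)
  have c4 := cat 539931279526 c3 h4 (by norm_num)
  have c5 := cat 645071556297 c4 h5 (by norm_num)
  have c6 := cat 748262203780 c5 h6 (by norm_num)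
  have c7 := cat 850776404138 c6 h7 (by norm_num)
  exact c7

end Pool.Agent.H.MP_a19cb6_nt
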