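import Pool.Agent.H.MP_a19cb6_nt.A

namespace Pool.Agent.H.MP_a19cb6_nt

theorem seg11 : U 127926272 + 791893770059 ≤ U 136314880 := by
  have h0 := step (show chk 8029 65536 2 127926272 8 128974848 102604213439 = true by decide +kernel)
  have h1 := step (show chk 8062 65536 2 128974848 8 130023424 100771472974 = true by decide +kernel)
  have h2 := step (show chk 8094 65536 2 130023424 8 131072000 100613605513 = true by decide +kernel)
  have h3 := step (show chk 8127 65536 2 131072000 8 132120576 99164750528 = true by decide +kernel)
  have h4 := step (show chk 8159 65536 2 132120576 8 133169152 98469850574 = true by decide +kernel)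
  have h5 := step (show chk 8191 65536 2 133169152 8 134217728 97197577714 = true by decide +kernel)
  have h6 := step (show chk 8223 131072 1 134217728 8 135266304 96798289173 = true by decide +kernel)
  have h7 := step (show chk 8255 131072 1 135266304 8 136314880 96274010144 = true by decide +kernel)
  have c1 := cat 203375686413 h0 h1 (by norm_num)
  have c2 := cat 303989291926 c1 h2 (by norm_num)
  have c3 := cat 403154042454 c2 h3 (by norm_num)
  have c4 := cat 501623893028 c3 h4 (by norm_num)
  have c5 := cat 598821470742 c4 h5 (by norm_num)
  have c6 := cat 695619759915 c5 h6 (by norm_num)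
  have c7 := cat 791893770059 c6 h7 (by norm_num)
  exact c7

end Pool.Agent.H.MP_a19cb6_nt
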