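import Pool.Agent.H.MP_a19cb6_nt.A

namespace Pool.Agent.H.MP_a19cb6_nt

theorem seg12 : U 136314880 + 740623999829 ≤ U 144703488 := by
  have h0 := step (show chk 8286 131072 1 136314880 8 137363456 94335920837 = true by decide +kernel)
  have h1 := step (show chk 8318 131072 1 137363456 8 138412032 95542779761 = true by decide +kernel)
  have h2 := step (show chk 8349 131072 1 138412032 8 139460608 92887000810 = true by decide +kernel)
  have h3 := step (show chk 8381 131072 1 139460608 8 140509184 93099561258 = true by decide +kernel)
  have h4 := step (show chk 8412 131072 1 140509184 8 141557760 91574823550 = true by decide +kernel)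
  have h5 := step (show chk 8443 131072 1 141557760 8 142606336 91272185289 = true by decide +kernel)
  have h6 := step (show chk 8474 131072 1 142606336 8 143654912 92139594634 = true by decide +kernel)
  have h7 := step (show chk 8505 131072 1 143654912 8 144703488 89772133690 = true by decide +kernel)
  have c1 := cat 189878700598 h0 h1 (by norm_num)
  have c2 := cat 282765701408 c1 h2 (by norm_num)
  have c3 := cat 375865262666 c2 h3 (by norm_num)
  have c4 := cat 467440086216 c3 h4 (by norm_num)
  have c5 := cat 558712271505 c4 h5 (by norm_num)
  have c6 := cat 650851866139 c5 h6 (by norm_num)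
  have c7 := cat 740623999829 c6 h7 (by norm_num)
  exact c7

end Pool.Agent.H.MP_a19cb6_nt
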