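import Pool.Agent.H.MP_a19cb6_nt.A

namespace Pool.Agent.H.MP_a19cb6_nt

theorem seg13 : U 144703488 + 695709423429 ≤ U 153092096 := by
  have h0 := step (show chk 8536 131072 1 144703488 8 145752064 89046921214 = true by decide +kernel)
  have h1 := step (show chk 8566 131072 1 145752064 8 146800640 87492621150 = true by decide +kernel)
  have h2 := step (show chk 8597 131072 1 146800640 8 147849216 87334950876 = true by decide +kernel)
  have h3 := step (show chk 8627 131072 1 147849216 8 148897792 87376224682 = true by decide +kernel)
  have h4 := step (show chk 8658 131072 1 148897792 8 149946368 87900126622 = true by decide +kernel)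
  have h5 := step (show chk 8688 131072 1 149946368 8 150994944 87095581009 = true by decide +kernel)
  have h6 := step (show chk 8718 131072 1 150994944 8 152043520 84205426707 = true by decide +kernel)
  have h7 := step (show chk 8748 131072 1 152043520 8 153092096 85257571169 = true by decide +kernel)
  have c1 := cat 176539542364 h0 h1 (by norm_num)
  have c2 := cat 263874493240 c1 h2 (by norm_num)
  have c3 := cat 351250717922 c2 h3 (by norm_num)
  have c4 := cat 439150844544 c3 h4 (by norm_num)
  have c5 := cat 526246425553 c4 h5 (by norm_num)
  have c6 := cat 610451852260 c5 h6 (by norm_num)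
  have c7 := cat 695709423429 c6 h7 (by norm_num)
  exact c7

end Pool.Agent.H.MP_a19cb6_nt
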