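import Pool.Agent.H.MP_a19cb6_nt.A

namespace Pool.Agent.H.MP_a19cb6_nt

theorem seg2 : U 32505856 + 4941444828591 ≤ U 46137344 := by
  have h0 := step (show chk 4095 16384 8 32505856 8 33554432 456834461448 = true by decide +kernel)
  have h1 := step (show chk 4159 32768 4 33554432 8 34603008 435817123456 = true by decide +kernel)
  have h2 := step (show chk 4221 32768 4 34603008 8 35651584 424128506227 = true by decide +kernel)
  have h3 := step (show chk 4283 32768 4 35651584 8 36700160 414058952787 = true by decide +kernel)
  have h4 := step (show chk 4343 32768 4 36700160 8 37748736 402671354717 = true by decide +kernel)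
  have h5 := step (show chk 4403 32768 4 37748736 8 38797312 385072647244 = true by decide +kernel)
  have h6 := step (show chk 4463 32768 4 38797312 8 39845888 375582854649 = true by decide +kernel)
  have h7 := step (show chk 4521 32768 4 39845888 8 40894464 362340539404 = true by decide +kernel)
  have h8 := step (show chk 4578 32768 4 40894464 8 41943040 354679263293 = true by decide +kernel)
  have h9 := step (show chk 4635 32768 4 41943040 8 42991616 348346243707 = true by decide +kernel)
  have h10 := step (show chk 4692 32768 4 42991616 8 44040192 334875318073 = true by decide +kernel)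
  have h11 := step (show chk 4747 32768 4 44040192 8 45088768 324534388375 = true by decide +kernel)
  have h12 := step (show chk 4802 32768 4 45088768 8 46137344 322503175211 = true by decide +kernel)
  have c1 := cat 892651584904 h0 h1 (by norm_num)
  have c2 := cat 1316780091131 c1 h2 (by norm_num)
  have c3 := cat 1730839043918 c2 h3 (by norm_num)
  have c4 := cat 2133510398635 c3 h4 (by norm_num)
  have c5 := cat 2518583045879 c4 h5 (by norm_num)
  have c6 := cat 2894165900528 c5 h6 (by norm_num)
  have c7 := cat 3256506439932 c6 h7 (by norm_num)
  have c8 := cat 3611185703225 c7 h8 (by norm_num)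
  have c9 := cat 3959531946932 c8 h9 (by norm_num)
  have c10 := cat 4294407265005 c9 h10 (by norm_num)
  have c11 := cat 4618941653380 c10 h11 (by norm_num)
  have c12 := cat 4941444828591 c11 h12 (by norm_num)
  exact c12

end Pool.Agent.H.MP_a19cb6_nt
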