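import Pool.Agent.H.MP_a19cb6_nt.A

namespace Pool.Agent.H.MP_a19cb6_nt

theorem seg3 : U 46137344 + 3296084854101 ≤ U 58720256 := by
  have h0 := step (show chk 4856 32768 4 46137344 8 47185920 311939406014 = true by decide +kernel)
  have h1 := step (show chk 4910 32768 4 47185920 8 48234496 303345202521 = true by decide +kernel)
  have h2 := step (show chk 4963 32768 4 48234496 8 49283072 293245824350 = true by decide +kernel)
  have h3 := step (show chk 5016 32768 4 49283072 8 50331648 286566195156 = true by decide +kernel)
  have h4 := step (show chk 5068 32768 4 50331648 8 51380224 283615582594 = true by decide +kernel)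
  have h5 := step (show chk 5119 32768 4 51380224 8 52428800 277056097075 = true by decide +kernel)
  have h6 := step (show chk 5170 32768 4 52428800 8 53477376 269554691471 = true by decide +kernel)
  have h7 := step (show chk 5220 32768 4 53477376 8 54525952 266685065405 = true by decide +kernel)
  have h8 := step (show chk 5270 32768 4 54525952 8 55574528 258167179306 = true by decide +kernel)
  have h9 := step (show chk 5320 32768 4 55574528 8 56623104 254554852513 = true by decide +kernel)
  have h10 := step (show chk 5369 32768 4 56623104 8 57671680 247769580214 = true by decide +kernel)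
  have h11 := step (show chk 5417 32768 4 57671680 8 58720256 243585177482 = true by decide +kernel)
  have c1 := cat 615284608535 h0 h1 (by norm_num)
  have c2 := cat 908530432885 c1 h2 (by norm_num)
  have c3 := cat 1195096628041 c2 h3 (by norm_num)
  have c4 := cat 1478712210635 c3 h4 (by norm_num)
  have c5 := cat 1755768307710 c4 h5 (by norm_num)
  have c6 := cat 2025322999181 c5 h6 (by norm_num)
  have c7 := cat 2292008064586 c6 h7 (by norm_num)
  have c8 := cat 2550175243892 c7 h8 (by norm_num)
  have c9 := cat 2804730096405 c8 h9 (by norm_num)
  have c10 := cat 3052499676619 c9 h10 (by norm_num)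
  have c11 := cat 3296084854101 c10 h11 (by norm_num)
  exact c11

end Pool.Agent.H.MP_a19cb6_nt
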