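import Pool.Agent.H.MP_a19cb6_nt.A

namespace Pool.Agent.H.MP_a19cb6_nt

theorem seg4 : U 58720256 + 2401945781069 ≤ U 70254592 := by
  have h0 := step (show chk 5466 32768 4 58720256 8 59768832 239593192551 = true by decide +kernel)
  have h1 := step (show chk 5513 32768 4 59768832 8 60817408 233013148622 = true by decide +kernel)
  have h2 := step (show chk 5561 32768 4 60817408 8 61865984 230391471477 = true by decide +kernel)
  have h3 := step (show chk 5608 32768 4 61865984 8 62914560 227811565740 = true by decide +kernel)
  have h4 := step (show chk 5654 32768 4 62914560 8 63963136 222925045511 = true by decide +kernel)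
  have h5 := step (show chk 5700 32768 4 63963136 8 65011712 216062794535 = true by decide +kernel)
  have h6 := step (show chk 5746 32768 4 65011712 8 66060288 214343021913 = true by decide +kernel)
  have h7 := step (show chk 5792 32768 4 66060288 8 67108864 209670851101 = true by decide +kernel)
  have h8 := step (show chk 5837 65536 2 67108864 8 68157440 206136385411 = true by decide +kernel)
  have h9 := step (show chk 5881 65536 2 68157440 8 69206016 202138087912 = true by decide +kernel)
  have h10 := step (show chk 5926 65536 2 69206016 8 70254592 199860216296 = true by decide +kernel)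
  have c1 := cat 472606341173 h0 h1 (by norm_num)
  have c2 := cat 702997812650 c1 h2 (by norm_num)
  have c3 := cat 930809378390 c2 h3 (by norm_num)
  have c4 := cat 1153734423901 c3 h4 (by norm_num)
  have c5 := cat 1369797218436 c4 h5 (by norm_num)
  have c6 := cat 1584140240349 c5 h6 (by norm_num)
  have c7 := cat 1793811091450 c6 h7 (by norm_num)
  have c8 := cat 1999947476861 c7 h8 (by norm_num)
  have c9 := cat 2202085564773 c8 h9 (by norm_num)
  have c10 := cat 2401945781069 c9 h10 (by norm_num)
  exact c10

end Pool.Agent.H.MP_a19cb6_nt
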