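import Pool.Agent.H.MP_a19cb6_nt.A

namespace Pool.Agent.H.MP_a19cb6_nt

theorem seg5 : U 70254592 + 1831147669400 ≤ U 80740352 := by
  have h0 := step (show chk 5970 65536 2 70254592 8 71303168 197975151985 = true by decide +kernel)
  have h1 := step (show chk 6014 65536 2 71303168 8 72351744 194857257010 = true by decide +kernel)
  have h2 := step (show chk 6057 65536 2 72351744 8 73400320 190451975926 = true by decide +kernel)
  have h3 := step (show chk 6100 65536 2 73400320 8 74448896 188065060509 = true by decide +kernel)
  have h4 := step (show chk 6143 65536 2 74448896 8 75497472 180107729598 = true by decide +kernel)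
  have h5 := step (show chk 6186 65536 2 75497472 8 76546048 180323721659 = true by decide +kernel)
  have h6 := step (show chk 6228 65536 2 76546048 8 77594624 180486627748 = true by decide +kernel)
  have h7 := step (show chk 6270 65536 2 77594624 8 78643200 176085617155 = true by decide +kernel)
  have h8 := step (show chk 6311 65536 2 78643200 8 79691776 171590929249 = true by decide +kernel)
  have h9 := step (show chk 6353 65536 2 79691776 8 80740352 171203598561 = true by decide +kernel)
  have c1 := cat 392832408995 h0 h1 (by norm_num)
  have c2 := cat 583284384921 c1 h2 (by norm_num)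
  have c3 := cat 771349445430 c2 h3 (by norm_num)
  have c4 := cat 951457175028 c3 h4 (by norm_num)
  have c5 := cat 1131780896687 c4 h5 (by norm_num)
  have c6 := cat 1312267524435 c5 h6 (by norm_num)
  have c7 := cat 1488353141590 c6 h7 (by norm_num)
  have c8 := cat 1659944070839 c7 h8 (by norm_num)
  have c9 := cat 1831147669400 c8 h9 (by norm_num)
  exact c9

end Pool.Agent.H.MP_a19cb6_nt
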