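import Pool.Agent.H.MP_a19cb6_nt.A

namespace Pool.Agent.H.MP_a19cb6_nt

theorem seg6 : U 80740352 + 1594364315061 ≤ U 91226112 := by
  have h0 := step (show chk 6394 65536 2 80740352 8 81788928 169624265278 = true by decide +kernel)
  have h1 := step (show chk 6435 65536 2 81788928 8 82837504 165123735130 = true by decide +kernel)
  have h2 := step (show chk 6475 65536 2 82837504 8 83886080 166336740017 = true by decide +kernel)
  have h3 := step (show chk 6516 65536 2 83886080 8 84934656 163642897174 = true by decide +kernel)
  have h4 := step (show chk 6556 65536 2 84934656 8 85983232 159166838108 = true by decide +kernel)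
  have h5 := step (show chk 6596 65536 2 85983232 8 87031808 159028154349 = true by decide +kernel)
  have h6 := step (show chk 6635 65536 2 87031808 8 88080384 155212582428 = true by decide +kernel)
  have h7 := step (show chk 6675 65536 2 88080384 8 89128960 156253319099 = true by decide +kernel)
  have h8 := step (show chk 6714 65536 2 89128960 8 90177536 150716126080 = true by decide +kernel)
  have h9 := step (show chk 6753 65536 2 90177536 8 91226112 149259657398 = true by decide +kernel)
  have c1 := cat 334748000408 h0 h1 (by norm_num)
  have c2 := cat 501084740425 c1 h2 (by norm_num)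
  have c3 := cat 664727637599 c2 h3 (by norm_num)
  have c4 := cat 823894475707 c3 h4 (by norm_num)
  have c5 := cat 982922630056 c4 h5 (by norm_num)
  have c6 := cat 1138135212484 c5 h6 (by norm_num)
  have c7 := cat 1294388531583 c6 h7 (by norm_num)
  have c8 := cat 1445104657663 c7 h8 (by norm_num)
  have c9 := cat 1594364315061 c8 h9 (by norm_num)
  exact c9

end Pool.Agent.H.MP_a19cb6_nt
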