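import Pool.Agent.H.MP_a19cb6_nt.A

namespace Pool.Agent.H.MP_a19cb6_nt

theorem seg7 : U 91226112 + 1261450542947 ≤ U 100663296 := by
  have h0 := step (show chk 6791 65536 2 91226112 8 92274688 145202139910 = true by decide +kernel)
  have h1 := step (show chk 6830 65536 2 92274688 8 93323264 146743551859 = true by decide +kernel)
  have h2 := step (show chk 6868 65536 2 93323264 8 94371840 143583665274 = true by decide +kernel)
  have h3 := step (show chk 6906 65536 2 94371840 8 95420416 140952444693 = true by decide +kernel)
  have h4 := step (show chk 6944 65536 2 95420416 8 96468992 138999262112 = true by decide +kernel)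
  have h5 := step (show chk 6982 65536 2 96468992 8 97517568 138981745597 = true by decide +kernel)
  have h6 := step (show chk 7019 65536 2 97517568 8 98566144 135163506317 = true by decide +kernel)
  have h7 := step (show chk 7056 65536 2 98566144 8 99614720 137094212665 = true by decide +kernel)
  have h8 := step (show chk 7093 65536 2 99614720 8 100663296 134730014520 = true by decide +kernel)
  have c1 := cat 291945691769 h0 h1 (by norm_num)
  have c2 := cat 435529357043 c1 h2 (by norm_num)
  have c3 := cat 576481801736 c2 h3 (by norm_num)
  have c4 := cat 715481063848 c3 h4 (by norm_num)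
  have c5 := cat 854462809445 c4 h5 (by norm_num)
  have c6 := cat 989626315762 c5 h6 (by norm_num)
  have c7 := cat 1126720528427 c6 h7 (by norm_num)
  have c8 := cat 1261450542947 c7 h8 (by norm_num)
  exact c8

end Pool.Agent.H.MP_a19cb6_nt
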