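import Pool.Agent.H.MP_a19cb6_nt.A

namespace Pool.Agent.H.MP_a19cb6_nt

theorem seg8 : U 100663296 + 1142997991429 ≤ U 110100480 := by
  have h0 := step (show chk 7130 65536 2 100663296 8 101711872 133679244002 = true by decide +kernel)
  have h1 := step (show chk 7167 65536 2 101711872 8 102760448 130609447490 = true by decide +kernel)
  have h2 := step (show chk 7203 65536 2 102760448 8 103809024 128540137823 = true by decide +kernel)
  have h3 := step (show chk 7240 65536 2 103809024 8 104857600 128470412067 = true by decide +kernel)
  have h4 := step (show chk 7276 65536 2 104857600 8 105906176 127253977143 = true by decide +kernel)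
  have h5 := step (show chk 7312 65536 2 105906176 8 106954752 125115416785 = true by decide +kernel)
  have h6 := step (show chk 7348 65536 2 106954752 8 108003328 125142615615 = true by decide +kernel)
  have h7 := step (show chk 7383 65536 2 108003328 8 109051904 122033094957 = true by decide +kernel)
  have h8 := step (show chk 7419 65536 2 109051904 8 110100480 122153645547 = true by decide +kernel)
  have c1 := cat 264288691492 h0 h1 (by norm_num)
  have c2 := cat 392828829315 c1 h2 (by norm_num)
  have c3 := cat 521299241382 c2 h3 (by norm_num)
  have c4 := cat 648553218525 c3 h4 (by norm_num)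
  have c5 := cat 773668635310 c4 h5 (by norm_num)
  have c6 := cat 898811250925 c5 h6 (by norm_num)
  have c7 := cat 1020844345882 c6 h7 (by norm_num)
  have c8 := cat 1142997991429 c7 h8 (by norm_num)
  exact c8

end Pool.Agent.H.MP_a19cb6_nt
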