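import Pool.Agent.H.MP_a19cb6_nt.A

namespace Pool.Agent.H.MP_a19cb6_nt

theorem seg9 : U 110100480 + 1038009184088 ≤ U 119537664 := by
  have h0 := step (show chk 7454 65536 2 110100480 8 111149056 119772640104 = true by decide +kernel)
  have h1 := step (show chk 7489 65536 2 111149056 8 112197632 118445297957 = true by decide +kernel)
  have h2 := step (show chk 7524 65536 2 112197632 8 113246208 117187456848 = true by decide +kernel)
  have h3 := step (show chk 7559 65536 2 113246208 8 114294784 115892809031 = true by decide +kernel)
  have h4 := step (show chk 7593 65536 2 114294784 8 115343360 115913446218 = true by decide +kernel)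
  have h5 := step (show chk 7628 65536 2 115343360 8 116391936 115519016507 = true by decide +kernel)
  have h6 := step (show chk 7662 65536 2 116391936 8 117440512 112068428758 = true by decide +kernel)
  have h7 := step (show chk 7696 65536 2 117440512 8 118489088 113028782647 = true by decide +kernel)
  have h8 := step (show chk 7730 65536 2 118489088 8 119537664 110181306018 = true by decide +kernel)
  have c1 := cat 238217938061 h0 h1 (by norm_num)
  have c2 := cat 355405394909 c1 h2 (by norm_num)
  have c3 := cat 471298203940 c2 h3 (by norm_num)
  have c4 := cat 587211650158 c3 h4 (by norm_num)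
  have c5 := cat 702730666665 c4 h5 (by norm_num)
  have c6 := cat 814799095423 c5 h6 (by norm_num)
  have c7 := cat 927827878070 c6 h7 (by norm_num)
  have c8 := cat 1038009184088 c7 h8 (by norm_num)
  exact c8

end Pool.Agent.H.MP_a19cb6_nt
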